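import Pool.Agent.K4H97.DS.Square

/-!
# MP_d5ec8b_lc, Q1: a Δ-set of reals whose square is not a Δ-set is consistent

The forcing notion first adds Cohen reals `x i`, for `i` in the (uncountable) ground model set
`I = 2^ω × 2`, and then, by a finite support iteration, for every function `r` from `I` to `ℕ`
(and for every subset of `I`) open sets which show that `X = {x i : i ∈ I}` is a Δ-set (and a
Q-set). The conditions only make promises about single reals `x i`, never about pairs. Therefore
two conditions of a uniform family, about `(x a, x a')` and `(x b, x b')`, can be copied to a third
one in such a way that the pair `(x c, x c')` looks like `(x a, x b')`. So the function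
`r (a, b') = ` first difference of `a` and `b` on the square is not bounded as required.

All forcing clauses are spelled out in `Pool/Agent/Helper669/Forcing.lean` and
`Pool/Agent/K4H97/DS/Defs.lean`.
-/

set_option autoImplicit false

namespace Pool.Agent.Results.MP_d5ec8b_lc.BadSquare

open Pool.Agent.K4H97.DS

/-- There is a notion of forcing such that every condition forces the following: there is a
Δ-set (and even Q-set) `X ⊆ 2^ω` of reals whose square `X × X` is not a Δ-set. So it is consistent
with ZFC that there is a Δ-set of reals whose square is not a Δ-set. -/
theorem result : ∃ (P : Type) (_ : Preorder P), Nonempty P ∧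
    ∀ p : P, p ∈ DeltaSetWithBadSquare P :=
  main

end Pool.Agent.Results.MP_d5ec8b_lc.BadSquare
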